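import Pool.Agent.V11229.RoleComb

/-!
# Role Assignment on interval graphs is `NP`-complete
-/

namespace Pool.Agent.Results.MP_a950c6_lc.RoleIntervalNPComplete

open Pool.Agent.NPC Pool.Agent.V11229 Pool.Agent.V11229.Role

/-- Interval graphs: intersection graphs of closed intervals of the real line. -/
def IsInterval {V : Type} (G : SimpleGraph V) : Prop :=
  ∃ lo hi : V → ℝ, (∀ v, lo v ≤ hi v) ∧
    ∀ u v, G.Adj u v ↔ u ≠ v ∧ (Set.Icc (lo u) (hi u) ∩ Set.Icc (lo v) (hi v)).Nonempty

/-- `r` is an `R`-role assignment of `G`, that is, a locally surjective homomorphism. -/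
def IsRoleAssignment {V W : Type} (G : SimpleGraph V) (R : SimpleGraph W) (r : V → W) : Prop :=
  (∀ u v, G.Adj u v → R.Adj (r u) (r v)) ∧ ∀ u, r '' G.neighborSet u = R.neighborSet (r u)

/-- ROLE ASSIGNMENT restricted to pairs `(G, R)` with an interval graph `G`: the instance is
`I = (G, R)`. -/
def RoleInterval (I : FG × FG) : Prop :=
  IsInterval I.1.G ∧ ∃ r, IsRoleAssignment I.1.G I.2.G r

theorem icc_iff {a b c d : ℝ} (h1 : a ≤ b) (h2 : c ≤ d) :
    (Set.Icc a b ∩ Set.Icc c d).Nonempty ↔ a ≤ d ∧ c ≤ b := by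
  rw [Set.Icc_inter_Icc, Set.nonempty_Icc, sup_le_iff, le_inf_iff, le_inf_iff]
  tauto

theorem isInterval_of_nat {V : Type} {G : SimpleGraph V} (lo hi : V → ℕ) (h1 : ∀ v, lo v ≤ hi v)
    (h2 : ∀ u v, G.Adj u v ↔ u ≠ v ∧ lo u ≤ hi v ∧ lo v ≤ hi u) : IsInterval G := by
  refine ⟨fun v => lo v, fun v => hi v, fun v => Nat.cast_le.2 (h1 v), fun u v => ?_⟩
  rw [h2, icc_iff (Nat.cast_le.2 (h1 u)) (Nat.cast_le.2 (h1 v)), Nat.cast_le, Nat.cast_le]

theorem nat_of_isInterval {n : ℕ} {G : SimpleGraph (Fin n)} (h : IsInterval G) :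
    ∃ lo hi : Fin n → Fin (2 * n), (∀ v, (lo v : ℕ) ≤ hi v) ∧
      ∀ u v, G.Adj u v ↔ u ≠ v ∧ (lo u : ℕ) ≤ hi v ∧ (lo v : ℕ) ≤ hi u := by
  classical
  obtain ⟨lo, hi, h1, h2⟩ := h
  let S : Finset ℝ := Finset.univ.image lo ∪ Finset.univ.image hi
  have hS : S.card ≤ 2 * n := by
    refine (Finset.card_union_le _ _).trans ?_
    have a1 : (Finset.univ.image lo).card ≤ n := Finset.card_image_le.trans (by simp)
    have a2 : (Finset.univ.image hi).card ≤ n := Finset.card_image_le.trans (by simp)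
    omega
  let rk : ℝ → ℕ := fun x => (S.filter (fun y => y < x)).card
  have hlt : ∀ x ∈ S, rk x < 2 * n := by
    intro x hx
    refine lt_of_lt_of_le (Finset.card_lt_card ?_) hS
    rw [Finset.ssubset_iff_of_subset (Finset.filter_subset _ _)]
    exact ⟨x, hx, by simp⟩
  have hle : ∀ x ∈ S, ∀ y ∈ S, (x ≤ y ↔ rk x ≤ rk y) := by
    intro x hx y hy
    constructor
    · intro hxy
      apply Finset.card_le_card
      intro z hz
      rw [Finset.mem_filter] at hz ⊢
      exact ⟨hz.1, lt_of_lt_of_le hz.2 hxy⟩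
    · intro hr
      by_contra hcon
      push Not at hcon
      refine absurd hr (not_le.2 (Finset.card_lt_card ?_))
      rw [Finset.ssubset_iff_of_subset]
      · exact ⟨y, by rw [Finset.mem_filter]; exact ⟨hy, hcon⟩, by simp⟩
      · intro z hz
        rw [Finset.mem_filter] at hz ⊢
        exact ⟨hz.1, hz.2.trans hcon⟩
  have hloS : ∀ v, lo v ∈ S := fun v =>
    Finset.mem_union_left _ (Finset.mem_image_of_mem _ (Finset.mem_univ _))
  have hhiS : ∀ v, hi v ∈ S := fun v =>
    Finset.mem_union_right _ (Finset.mem_image_of_mem _ (Finset.mem_univ _))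
  refine ⟨fun v => ⟨rk (lo v), hlt _ (hloS v)⟩, fun v => ⟨rk (hi v), hlt _ (hhiS v)⟩, ?_, ?_⟩
  · intro v
    exact (hle _ (hloS v) _ (hhiS v)).1 (h1 v)
  · intro u v
    rw [h2, icc_iff (h1 u) (h1 v), hle _ (hloS u) _ (hhiS v), hle _ (hloS v) _ (hhiS u)]

/-! ### Membership in `NP` -/

/-- the verifier -/
def ver (x : (LMat Bool × LMat Bool) × (List ℕ × List ℕ × List ℕ)) : Bool :=
  (List.range x.1.1.n).all (fun i =>
    (decide (x.2.1.getD i 0 ≤ x.2.2.1.getD i 0) && decide (x.2.2.2.getD i 0 < x.1.2.n)) &&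
    ((List.range x.1.1.n).all (fun j =>
      decide (x.1.1.ent false i j = (!(decide (i = j)) &&
        (decide (x.2.1.getD i 0 ≤ x.2.2.1.getD j 0) &&
          decide (x.2.1.getD j 0 ≤ x.2.2.1.getD i 0)))) &&
      (!(x.1.1.ent false i j) || x.1.2.ent false (x.2.2.2.getD i 0) (x.2.2.2.getD j 0))) &&
    (List.range x.1.2.n).all (fun w => !(x.1.2.ent false (x.2.2.2.getD i 0) w) ||
      (List.range x.1.1.n).any (fun j => x.1.1.ent false i j &&
        decide (x.2.2.2.getD j 0 = w)))))

theorem ver_poly : Poly ver := by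
  unfold ver
  refine Poly.allRange (n := fun x : (LMat Bool × LMat Bool) × (List ℕ × List ℕ × List ℕ) =>
    x.1.1.n) (p := fun x i =>
    (decide (x.2.1.getD i 0 ≤ x.2.2.1.getD i 0) && decide (x.2.2.2.getD i 0 < x.1.2.n)) &&
    ((List.range x.1.1.n).all (fun j =>
      decide (x.1.1.ent false i j = (!(decide (i = j)) &&
        (decide (x.2.1.getD i 0 ≤ x.2.2.1.getD j 0) &&
          decide (x.2.1.getD j 0 ≤ x.2.2.1.getD i 0)))) &&
      (!(x.1.1.ent false i j) || x.1.2.ent false (x.2.2.2.getD i 0) (x.2.2.2.getD j 0))) &&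
    (List.range x.1.2.n).all (fun w => !(x.1.2.ent false (x.2.2.2.getD i 0) w) ||
      (List.range x.1.1.n).any (fun j => x.1.1.ent false i j &&
        decide (x.2.2.2.getD j 0 = w))))) (UPoly.lmat_n (by fun_prop)) ?_
  refine NPC.Poly.and (by fun_prop) (NPC.Poly.and ?_ ?_)
  · exact Poly.allRange
      (n := fun x : ((LMat Bool × LMat Bool) × (List ℕ × List ℕ × List ℕ)) × ℕ => x.1.1.1.n)
      (p := fun x j => decide (x.1.1.1.ent false x.2 j = (!(decide (x.2 = j)) &&
        (decide (x.1.2.1.getD x.2 0 ≤ x.1.2.2.1.getD j 0) &&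
          decide (x.1.2.1.getD j 0 ≤ x.1.2.2.1.getD x.2 0)))) &&
      (!(x.1.1.1.ent false x.2 j) ||
        x.1.1.2.ent false (x.1.2.2.2.getD x.2 0) (x.1.2.2.2.getD j 0)))
      (UPoly.lmat_n (by fun_prop)) (by fun_prop)
  · refine Poly.allRange
      (n := fun x : ((LMat Bool × LMat Bool) × (List ℕ × List ℕ × List ℕ)) × ℕ => x.1.1.2.n)
      (p := fun x w => !(x.1.1.2.ent false (x.1.2.2.2.getD x.2 0) w) ||
      (List.range x.1.1.1.n).any (fun j => x.1.1.1.ent false x.2 j &&
        decide (x.1.2.2.2.getD j 0 = w)))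
      (UPoly.lmat_n (by fun_prop)) ?_
    refine NPC.Poly.or (by fun_prop) ?_
    exact Poly.anyRange
      (n := fun x : (((LMat Bool × LMat Bool) × (List ℕ × List ℕ × List ℕ)) × ℕ) × ℕ =>
        x.1.1.1.1.n)
      (p := fun x j => x.1.1.1.1.ent false x.1.2 j &&
        decide (x.1.1.2.2.2.getD j 0 = x.2))
      (UPoly.lmat_n (by fun_prop)) (by fun_prop)

theorem sz_ofFn_le {n k : ℕ} (f : Fin n → Fin k) :
    sz (List.ofFn (fun i => (f i : ℕ))) ≤ n * (4 * k + 2) + 1 := by
  have h := sz_le_length_mul (List.ofFn (fun i => (f i : ℕ))) (4 * k + 1) (by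
    intro a ha
    rw [List.mem_ofFn] at ha
    obtain ⟨i, rfl⟩ := ha
    have h1 := sz_nat_le (f i : ℕ)
    have h2 : ((f i : ℕ)).size ≤ (f i : ℕ) := Nat.size_le.2 Nat.lt_two_pow_self
    have h3 := (f i).isLt
    omega)
  simpa using h

theorem ofFn_getD {n k : ℕ} (f : Fin n → Fin k) {i : ℕ} (hi : i < n) :
    (List.ofFn (fun i => (f i : ℕ))).getD i 0 = f ⟨i, hi⟩ := by
  simp [List.getD_eq_getElem?_getD, hi]

theorem inNPP_roleInterval : InNPP RoleInterval := by
  refine inNPP_sub (fun a : FG × FG => (a.1.mat, a.2.mat)) (fun _ => rfl) ver_poly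
    (Polynomial.C 64 * Polynomial.X * Polynomial.X + Polynomial.C 64 *
    Polynomial.X + Polynomial.C 64) (fun y => okFG y.1 && okFG y.2) ?_ ?_ ?_ ?_
  · exact NPC.Poly.and (okFG_poly.comp (NPC.Poly.fst NPC.Poly.id))
      (okFG_poly.comp (NPC.Poly.snd NPC.Poly.id))
  · rintro ⟨M, M'⟩ hM
    rw [Bool.and_eq_true] at hM
    exact ⟨(FG.ofMat M ((okFG_iff M).1 hM.1), FG.ofMat M' ((okFG_iff M').1 hM.2)), by
      simp [FG.mat_ofMat]⟩
  · intro a
    rw [Bool.and_eq_true]
    exact ⟨(okFG_iff _).2 a.1.isAdj, (okFG_iff _).2 a.2.isAdj⟩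
  · rintro ⟨G, R⟩
    unfold RoleInterval
    have hv : ∀ w : List ℕ × List ℕ × List ℕ, ver ((G.mat, R.mat), w) = true ↔
        ∀ i < G.n, (w.1.getD i 0 ≤ w.2.1.getD i 0 ∧ w.2.2.getD i 0 < R.n) ∧
          ((∀ j < G.n, (G.mat.ent false i j = true ↔ i ≠ j ∧ w.1.getD i 0 ≤ w.2.1.getD j 0 ∧
            w.1.getD j 0 ≤ w.2.1.getD i 0) ∧
            (G.mat.ent false i j = true →
              R.mat.ent false (w.2.2.getD i 0) (w.2.2.getD j 0) = true)) ∧
          ∀ u < R.n, R.mat.ent false (w.2.2.getD i 0) u = true →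
            ∃ j < G.n, G.mat.ent false i j = true ∧ w.2.2.getD j 0 = u) := by
      intro w
      unfold ver
      simp only [Bool.and_eq_true, List.all_eq_true, List.any_eq_true, List.mem_range,
        decide_eq_true_eq, Bool.or_eq_true, Bool.not_eq_true', FG.mat_n]
      refine forall_congr' fun i => forall_congr' fun _ => and_congr Iff.rfl (and_congr ?_ ?_)
      · refine forall_congr' fun j => forall_congr' fun _ => and_congr ?_ ?_
        · rw [Bool.eq_iff_iff]
          simp only [Bool.and_eq_true, Bool.not_eq_true', decide_eq_false_iff_not,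
            decide_eq_true_eq, ne_eq]
        · cases G.mat.ent false i j <;> simp
      · refine forall_congr' fun u => forall_congr' fun _ => ?_
        cases R.mat.ent false (w.2.2.getD i 0) u <;> simp
    constructor
    · rintro ⟨hint, r, hhom, hsur⟩
      obtain ⟨lo, hi, h1, h2⟩ := nat_of_isInterval hint
      refine ⟨(List.ofFn (fun i => (lo i : ℕ)), List.ofFn (fun i => (hi i : ℕ)),
        List.ofFn (fun i => (r i : ℕ))), ?_, (hv _).2 ?_⟩
      · have e0 := sz_ofFn_le lo
        have e1 := sz_ofFn_le hi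
        have e1' := sz_ofFn_le r
        have e2 : G.n < sz G.mat := sz_mat_gt G.mat
        have e3 : R.n < sz R.mat := sz_mat_gt R.mat
        have e4 : sz (G.mat, R.mat) = sz G.mat + sz R.mat + 1 := sz_pair _ _
        rw [sz_pair, sz_pair]
        simp only
        rw [e4]
        simp only [Polynomial.eval_add, Polynomial.eval_mul, Polynomial.eval_X,
          Polynomial.eval_C]
        have e5 : G.n * (4 * (2 * G.n) + 2) ≤ sz G.mat * (4 * (2 * sz G.mat) + 2) := by gcongr
        have e6 : G.n * (4 * R.n + 2) ≤ sz G.mat * (4 * sz R.mat + 2) := by gcongr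
        nlinarith [sz_pos G.mat, sz_pos R.mat]
      · intro i hi'
        simp only
        rw [ofFn_getD lo hi', ofFn_getD hi hi', ofFn_getD r hi']
        refine ⟨⟨h1 _, (r ⟨i, hi'⟩).isLt⟩, fun j hj => ?_, fun u hu hru => ?_⟩
        · rw [ofFn_getD lo hj, ofFn_getD hi hj, ofFn_getD r hj]
          have e1 := G.ent_iff ⟨i, hi'⟩ ⟨j, hj⟩
          simp only at e1
          rw [e1]
          constructor
          · rw [h2]
            simp [Fin.ext_iff]
          · intro h
            exact (R.ent_iff _ _).2 (hhom _ _ h)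
        · have e1 := (R.ent_iff (r ⟨i, hi'⟩) ⟨u, hu⟩).1 hru
          have e2 : (⟨u, hu⟩ : Fin R.n) ∈ r '' G.G.neighborSet ⟨i, hi'⟩ := by
            rw [hsur]
            exact e1
          obtain ⟨j, hj, hju⟩ := e2
          refine ⟨j, j.isLt, (G.ent_iff ⟨i, hi'⟩ j).2 hj, ?_⟩
          rw [ofFn_getD r j.isLt]
          exact congrArg Fin.val hju
    · rintro ⟨w, _, h⟩
      have h := (hv w).1 h
      refine ⟨isInterval_of_nat (fun i => w.1.getD i 0) (fun i => w.2.1.getD i 0)
        (fun i => (h i i.isLt).1.1) (fun i j => ?_), fun i => ⟨w.2.2.getD i 0, (h i i.isLt).1.2⟩,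
        ?_⟩
      · rw [← G.ent_iff i j, ((h i i.isLt).2.1 j j.isLt).1]
        simp [Fin.ext_iff]
      · have hhom : ∀ i j : Fin G.n, G.G.Adj i j → R.G.Adj ⟨w.2.2.getD i 0, (h i i.isLt).1.2⟩
            ⟨w.2.2.getD j 0, (h j j.isLt).1.2⟩ := by
          intro i j hij
          exact (R.ent_iff ⟨w.2.2.getD i 0, _⟩ ⟨w.2.2.getD j 0, _⟩).1
            (((h i i.isLt).2.1 j j.isLt).2 ((G.ent_iff i j).2 hij))
        refine ⟨hhom, fun i => Set.Subset.antisymm ?_ ?_⟩
        · rintro _ ⟨j, hj, rfl⟩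
          exact hhom i j hj
        · intro u hu
          obtain ⟨j, hj, h1, h2⟩ := (h i i.isLt).2.2 u u.isLt
            ((R.ent_iff ⟨w.2.2.getD i 0, _⟩ u).2 hu)
          exact ⟨⟨j, hj⟩, (G.ent_iff i ⟨j, hj⟩).1 h1, Fin.ext h2⟩

/-! ### Transport along isomorphisms -/

theorem isInterval_iso {V W : Type} {G : SimpleGraph V} {H : SimpleGraph W} (e : G ≃g H)
    (h : IsInterval H) : IsInterval G := by
  obtain ⟨lo, hi, h1, h2⟩ := h
  refine ⟨fun v => lo (e v), fun v => hi (e v), fun v => h1 _, fun u v => ?_⟩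
  rw [← e.map_adj_iff, h2]
  simp

theorem role_iso {V W V' W' : Type} {G : SimpleGraph V} {R : SimpleGraph W}
    {G' : SimpleGraph V'} {R' : SimpleGraph W'} (e : G ≃g G') (e' : R ≃g R')
    (h : ∃ r, IsRoleAssignment G R r) : ∃ r, IsRoleAssignment G' R' r := by
  obtain ⟨r, h1, h2⟩ := h
  have hhom : ∀ u v, G'.Adj u v → R'.Adj (e' (r (e.symm u))) (e' (r (e.symm v))) :=
    fun u v huv => e'.map_adj_iff.2 (h1 _ _ (e.symm.map_adj_iff.2 huv))
  refine ⟨fun u => e' (r (e.symm u)), hhom, fun u => Set.Subset.antisymm ?_ ?_⟩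
  · rintro _ ⟨v, hv, rfl⟩
    exact hhom _ _ hv
  · intro w hw
    have h3 : R.Adj (r (e.symm u)) (e'.symm w) := by
      rw [← e'.map_adj_iff]
      simpa using hw
    have h4 : e'.symm w ∈ r '' G.neighborSet (e.symm u) := by
      rw [h2]
      exact h3
    obtain ⟨v, hv, hv'⟩ := h4
    refine ⟨e v, ?_, ?_⟩
    · change G'.Adj u (e v)
      rw [← e.symm.map_adj_iff]
      simpa using hv
    · simp only [RelIso.symm_apply_apply]
      rw [hv']
      simp

/-! ### The host graph is an interval graph -/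

theorem interval_HG {K : Type} {g len : K → ℕ} (pos : K → ℕ) {M L : ℕ}
    (hpos : ∀ κ, pos κ < M) (hM : 0 < M)
    (hinj : ∀ κ κ', g κ = g κ' → pos κ = pos κ' → κ = κ') (hlen : ∀ κ, len κ ≤ L) :
    IsInterval (HG K g len) := by
  let W : ℕ := 2 * L + 3
  let P : ℕ := M * W
  have hP : 0 < P := Nat.mul_pos hM (by omega)
  let b : K → ℕ := fun κ => (g κ + 1) * M + pos κ
  have hb1 : ∀ κ, (g κ + 1) * P ≤ b κ * W := by
    intro κ
    change (g κ + 1) * (M * W) ≤ ((g κ + 1) * M + pos κ) * W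
    rw [← mul_assoc]
    exact Nat.mul_le_mul_right _ (Nat.le_add_right _ _)
  have hb2 : ∀ κ, b κ * W + W ≤ (g κ + 2) * P := by
    intro κ
    change ((g κ + 1) * M + pos κ) * W + W ≤ (g κ + 2) * (M * W)
    have h1 : (g κ + 1) * M + pos κ + 1 ≤ (g κ + 2) * M := by
      have := hpos κ
      nlinarith
    calc ((g κ + 1) * M + pos κ) * W + W = ((g κ + 1) * M + pos κ + 1) * W := by ring
      _ ≤ ((g κ + 2) * M) * W := Nat.mul_le_mul_right _ h1
      _ = _ := by ring
  have hbinj : ∀ κ κ', b κ = b κ' → κ = κ' := by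
    intro κ κ' h
    change (g κ + 1) * M + pos κ = (g κ' + 1) * M + pos κ' at h
    have h1 := hpos κ
    have h2 := hpos κ'
    have hg : g κ = g κ' := by
      rcases Nat.lt_trichotomy (g κ) (g κ') with h3 | h3 | h3
      · exfalso
        have h4 : (g κ + 2) * M ≤ (g κ' + 1) * M := Nat.mul_le_mul_right _ (by omega)
        have h5 : (g κ + 2) * M = (g κ + 1) * M + M := by ring
        omega
      · exact h3
      · exfalso
        have h4 : (g κ' + 2) * M ≤ (g κ + 1) * M := Nat.mul_le_mul_right _ (by omega)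
        have h5 : (g κ' + 2) * M = (g κ' + 1) * M + M := by ring
        omega
    refine hinj κ κ' hg ?_
    rw [hg] at h
    omega
  have hbW : ∀ κ κ', b κ < b κ' → b κ * W + W ≤ b κ' * W := by
    intro κ κ' h
    calc b κ * W + W = (b κ + 1) * W := by ring
      _ ≤ b κ' * W := Nat.mul_le_mul_right _ h
  have hcan : ∀ a c : ℕ, a * P < c * P → a < c := fun a c h => Nat.lt_of_mul_lt_mul_right h
  let lo : Fin 6 ⊕ PV K len → ℕ := fun x => match x with
    | .inl a => a.val * P
    | .inr u => b u.1.1 * W + 2 * u.1.2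
  let hi : Fin 6 ⊕ PV K len → ℕ := fun x => match x with
    | .inl a => (a.val + 2) * P - 1
    | .inr u => b u.1.1 * W + 2 * u.1.2 + 2
  have hmix : ∀ (a : Fin 6) (u : PV K len),
      (g u.1.1 = a.val ∨ g u.1.1 + 1 = a.val) ↔
        a.val * P ≤ b u.1.1 * W + 2 * u.1.2 + 2 ∧
          b u.1.1 * W + 2 * u.1.2 ≤ (a.val + 2) * P - 1 := by
    intro a u
    have h1 := hb1 u.1.1
    have h2 := hb2 u.1.1
    have h3 : u.1.2 ≤ L := u.2.trans (hlen _)
    have hW : W = 2 * L + 3 := rfl
    have h4 : 0 < (a.val + 2) * P := Nat.mul_pos (by omega) hP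
    constructor
    · rintro (h | h)
      · rw [← h]
        have e1 : (g u.1.1 + 1) * P = g u.1.1 * P + P := by ring
        omega
      · rw [← h]
        have e1 : (g u.1.1 + 1 + 2) * P = (g u.1.1 + 2) * P + P := by ring
        omega
    · rintro ⟨h5, h6⟩
      have h7 : a.val < g u.1.1 + 2 := hcan _ _ (by omega)
      have h8 : g u.1.1 + 1 < a.val + 2 := hcan _ _ (by omega)
      omega
  refine isInterval_of_nat lo hi ?_ ?_
  · rintro (a | u)
    · change a.val * P ≤ (a.val + 2) * P - 1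
      have e1 : (a.val + 2) * P = a.val * P + 2 * P := by ring
      omega
    · change b u.1.1 * W + 2 * u.1.2 ≤ b u.1.1 * W + 2 * u.1.2 + 2
      omega
  · rintro (a | u) (c | v)
    · change (a.val + 1 = c.val ∨ c.val + 1 = a.val) ↔ _ ∧
        a.val * P ≤ (c.val + 2) * P - 1 ∧ c.val * P ≤ (a.val + 2) * P - 1
      have h4 : 0 < (a.val + 2) * P := Nat.mul_pos (by omega) hP
      have h5 : 0 < (c.val + 2) * P := Nat.mul_pos (by omega) hP
      constructor
      · intro h
        refine ⟨?_, ?_, ?_⟩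
        · intro h6
          have h7 : a = c := Sum.inl_injective h6
          subst h7
          omega
        · have e : a.val * P < (c.val + 2) * P := Nat.mul_lt_mul_of_pos_right (by omega) hP
          omega
        · have e : c.val * P < (a.val + 2) * P := Nat.mul_lt_mul_of_pos_right (by omega) hP
          omega
      · rintro ⟨h1, h2, h3⟩
        have h6 : a.val < c.val + 2 := hcan _ _ (by omega)
        have h7 : c.val < a.val + 2 := hcan _ _ (by omega)
        have h8 : a.val ≠ c.val := fun h => h1 (congrArg Sum.inl (Fin.ext h))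
        omega
    · change (g v.1.1 = a.val ∨ g v.1.1 + 1 = a.val) ↔ _ ∧
        a.val * P ≤ b v.1.1 * W + 2 * v.1.2 + 2 ∧ b v.1.1 * W + 2 * v.1.2 ≤ (a.val + 2) * P - 1
      rw [hmix a v]
      simp
    · change (g u.1.1 = c.val ∨ g u.1.1 + 1 = c.val) ↔ _ ∧
        b u.1.1 * W + 2 * u.1.2 ≤ (c.val + 2) * P - 1 ∧ c.val * P ≤ b u.1.1 * W + 2 * u.1.2 + 2
      rw [hmix c u]
      simp
      tauto
    · change PAdj u v ↔ _ ∧ b u.1.1 * W + 2 * u.1.2 ≤ b v.1.1 * W + 2 * v.1.2 + 2 ∧
        b v.1.1 * W + 2 * v.1.2 ≤ b u.1.1 * W + 2 * u.1.2 + 2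
      have hu : u.1.2 ≤ L := u.2.trans (hlen _)
      have hv : v.1.2 ≤ L := v.2.trans (hlen _)
      have hW : W = 2 * L + 3 := rfl
      constructor
      · rintro ⟨h1, h2⟩
        refine ⟨?_, ?_⟩
        · intro h3
          have h4 : u = v := Sum.inr_injective h3
          subst h4
          omega
        · rw [h1]
          omega
      · rintro ⟨h1, h2, h3⟩
        have hκ : u.1.1 = v.1.1 := by
          apply hbinj
          rcases Nat.lt_trichotomy (b u.1.1) (b v.1.1) with h4 | h4 | h4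
          · have := hbW _ _ h4
            omega
          · exact h4
          · have := hbW _ _ h4
            omega
        rw [hκ] at h2 h3
        have hne : u.1.2 ≠ v.1.2 := by
          intro h4
          exact h1 (congrArg Sum.inr (Subtype.ext (Prod.ext hκ h4)))
        exact ⟨hκ, by omega⟩

/-! ### The reduction -/

/-- labels of vertices -/
abbrev Lab : Type := (ℕ × ℕ) × ℕ

/-- the bound for the lengths -/
def BB (φ : F3) : ℕ := bnd (2 * nO φ) * bnd (2 * nO φ) * bnd (2 * nO φ) + 1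

/-- labels of the vertices of the host -/
def okH (φ : F3) (x : Lab) : Bool :=
  if x.1.1 = 5 then decide (x.1.2 < 6) && decide (x.2 = 0)
  else decide (x.1.2 < cnt φ x.1.1) && decide (x.2 ≤ lenF φ x.1.1 x.1.2)

/-- the vertices of the host -/
def vH (φ : F3) : List Lab :=
  ((List.range 6 ×ˢ List.range (2 * nO φ + 6)) ×ˢ List.range (BB φ)).filter (okH φ)

/-- the edges of the host, in one direction -/
def adH (x y : Lab) : Bool :=
  if x.1.1 = 5 then
    (if y.1.1 = 5 then decide (x.1.2 + 1 = y.1.2)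
      else decide (y.1.1 = x.1.2) || decide (y.1.1 + 1 = x.1.2))
  else decide (x.1 = y.1) && decide (x.2 + 1 = y.2)

/-- labels of the vertices of the target -/
def okR (φ : F3) (x : Lab) : Bool :=
  if x.1.1 = 1 then decide (x.1.2 < 2) && decide (x.2 = 0)
  else decide (x.1.2 < 2 * nO φ) && decide (x.2 ≤ qf (2 * nO φ) x.1.2)

/-- the vertices of the target -/
def vR (φ : F3) : List Lab :=
  ((List.range 2 ×ˢ List.range (2 * nO φ + 2)) ×ˢ List.range (bnd (2 * nO φ))).filter (okR φ)

/-- the edges of the target, in one direction -/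
def adR (x y : Lab) : Bool := decide (x.1.1 = 1) || (decide (x.1 = y.1) && decide (x.2 + 1 = y.2))

/-- the reduction -/
def red (φ : F3) : FG × FG := (FG.ofList (vH φ) adH, FG.ofList (vR φ) adR)

theorem uN : UPoly (fun φ : F3 => 2 * nO φ) :=
  UPoly.mul (UPoly.const 2) (UPoly.mul (UPoly.length NPC.Poly.id) (UPoly.const 3))

theorem uN' {α : Type} [TEnc α] {f : α → F3} (hf : Poly f) : UPoly (fun a => 2 * nO (f a)) :=
  uN.comp hf

theorem cnt_poly {α : Type} [TEnc α] {f : α → F3} {g : α → ℕ} (hf : Poly f) (hg : Poly g) :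
    Poly (fun a => cnt (f a) (g a)) := by
  unfold cnt nO
  fun_prop

theorem tp_poly {α : Type} [TEnc α] {f : α → F3} {o : α → ℕ} (hf : Poly f) (ho : Poly o) :
    Poly (fun a => tp (f a) (o a)) := by
  unfold tp
  fun_prop

theorem fp_poly {α : Type} [TEnc α] {f : α → F3} {o : α → ℕ} (hf : Poly f) (ho : Poly o) :
    Poly (fun a => fp (f a) (o a)) := by
  unfold fp
  fun_prop

attribute [local fun_prop] cnt_poly tp_poly fp_poly

theorem Jt_poly {α : Type} [TEnc α] {f : α → F3} {g k : α → ℕ} (hf : Poly f) (hg : Poly g)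
    (hk : Poly k) : Poly (fun a => Jt (f a) (g a) (k a)) := by
  unfold Jt
  have h1 : Poly (fun a => k a % 3) := NPC.Poly.mod hk (NPC.Poly.const 3)
  fun_prop

theorem lenF_poly {α : Type} [TEnc α] {f : α → F3} {g k : α → ℕ} (hf : Poly f) (hg : Poly g)
    (hk : Poly k) : Poly (fun a => lenF (f a) (g a) (k a)) := by
  unfold lenF
  have hJ := Jt_poly hf hg hk
  have h1 := qf_poly (uN' hf) (t := fun a => (Jt (f a) (g a) (k a)).1) (by fun_prop)
  have h2 := qf_poly (uN' hf) (t := fun a => (Jt (f a) (g a) (k a)).2.1) (by fun_prop)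
  have h3 := qf_poly (uN' hf) (t := fun a => (Jt (f a) (g a) (k a)).2.2) (by fun_prop)
  fun_prop

attribute [local fun_prop] lenF_poly

theorem vH_poly : Poly vH := by
  unfold vH
  have h1 : Poly (fun φ : F3 => List.range (2 * nO φ + 6)) :=
    UPoly.range (UPoly.add uN (UPoly.const 6))
  have hb := bnd_upoly uN
  have h2 : Poly (fun φ : F3 => List.range (BB φ)) :=
    UPoly.range (UPoly.add (UPoly.mul (UPoly.mul hb hb) hb) (UPoly.const 1))
  refine NPC.Poly.filter (p := okH) (by fun_prop) ?_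
  unfold okH
  fun_prop

theorem vR_poly : Poly vR := by
  unfold vR
  have h1 : Poly (fun φ : F3 => List.range (2 * nO φ + 2)) :=
    UPoly.range (UPoly.add uN (UPoly.const 2))
  have h2 : Poly (fun φ : F3 => List.range (bnd (2 * nO φ))) := UPoly.range (bnd_upoly uN)
  refine NPC.Poly.filter (p := okR) (by fun_prop) ?_
  unfold okR
  have h3 : Poly (fun x : F3 × Lab => qf (2 * nO x.1) x.2.1.2) :=
    qf_poly (uN' (NPC.Poly.fst NPC.Poly.id)) (by fun_prop)
  have h4 : Poly (fun x : F3 × Lab => 2 * nO x.1) := (uN' (NPC.Poly.fst NPC.Poly.id)).toPoly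
  fun_prop

theorem red_poly : Poly red := by
  unfold red
  refine NPC.Poly.pair ?_ ?_
  · refine Poly.FG_ofList (ad := fun _ => adH) vH_poly ?_
    unfold adH
    fun_prop
  · refine Poly.FG_ofList (ad := fun _ => adR) vR_poly ?_
    unfold adR
    fun_prop

theorem lenF_lt (φ : F3) (g k : ℕ) : lenF φ g k < BB φ := by
  unfold lenF BB
  have h1 := (qf_lt (2 * nO φ) (Jt φ g k).1).le
  have h2 := (qf_lt (2 * nO φ) (Jt φ g k).2.1).le
  have h3 := (qf_lt (2 * nO φ) (Jt φ g k).2.2).le
  have := Nat.mul_le_mul (Nat.mul_le_mul h1 h2) h3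
  omega

theorem lenF_pos (φ : F3) (g k : ℕ) : 0 < lenF φ g k :=
  Nat.mul_pos (Nat.mul_pos (qf_prime _ _).pos (qf_prime _ _).pos) (qf_prime _ _).pos

theorem cnt_le (φ : F3) (g : ℕ) : cnt φ g ≤ 2 * nO φ := by
  unfold cnt
  split_ifs <;> omega

theorem isoH (φ : F3) : Nonempty ((FG.ofList (vH φ) adH).G ≃g HG (KT φ) gK lK) := by
  refine FG.ofList_iso (vH φ) ?_ (fun x => match x with
    | .inl a => (((5, a.val), 0) : Lab)
    | .inr u => ((u.1.1.1, u.1.2) : Lab)) ?_ ?_ adH (HG (KT φ) gK lK) ?_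
  · unfold vH
    exact List.Nodup.filter _ (List.Nodup.product (List.Nodup.product List.nodup_range
      List.nodup_range) List.nodup_range)
  · rintro (a | u) (c | v) h
    · simp only [Prod.mk.injEq, true_and, and_true] at h
      rw [Fin.ext h]
    · exfalso
      have h1 := congrArg (fun x : Lab => x.1.1) h
      have h2 := v.1.1.2.1
      simp only at h1
      omega
    · exfalso
      have h1 := congrArg (fun x : Lab => x.1.1) h
      have h2 := u.1.1.2.1
      simp only at h1
      omega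
    · simp only [Prod.mk.injEq] at h
      rw [Subtype.ext (Prod.ext (Subtype.ext h.1) h.2)]
  · rintro ⟨⟨g, k⟩, i⟩
    unfold vH
    rw [List.mem_filter, List.mem_product, List.mem_product, List.mem_range, List.mem_range,
      List.mem_range]
    constructor
    · rintro ⟨⟨⟨h1, h2⟩, h3⟩, h4⟩
      unfold okH at h4
      simp only at h1 h2 h3 h4
      by_cases h5 : g = 5
      · rw [if_pos h5, Bool.and_eq_true, decide_eq_true_eq, decide_eq_true_eq] at h4
        subst h5
        obtain ⟨h4, rfl⟩ := h4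
        exact ⟨.inl ⟨k, h4⟩, rfl⟩
      · rw [if_neg h5, Bool.and_eq_true, decide_eq_true_eq, decide_eq_true_eq] at h4
        exact ⟨.inr ⟨(⟨(g, k), by simp only; omega, h4.1⟩, i), h4.2⟩, rfl⟩
    · rintro ⟨a | u, h⟩
      · simp only [Prod.mk.injEq] at h
        obtain ⟨⟨rfl, rfl⟩, rfl⟩ := h
        have ha := a.isLt
        refine ⟨⟨⟨by norm_num, by omega⟩, ?_⟩, ?_⟩
        · unfold BB
          omega
        · unfold okH
          simp [ha]
      · obtain ⟨⟨⟨⟨g', k'⟩, hg', hk'⟩, i'⟩, hi'⟩ := u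
        simp only [Prod.mk.injEq] at h hg' hk' hi'
        obtain ⟨⟨rfl, rfl⟩, rfl⟩ := h
        have h1 := cnt_le φ g'
        refine ⟨⟨⟨by omega, by omega⟩, ?_⟩, ?_⟩
        · exact lt_of_le_of_lt hi' (lenF_lt _ _ _)
        · unfold okH
          simp only
          rw [if_neg (by omega), Bool.and_eq_true, decide_eq_true_eq, decide_eq_true_eq]
          exact ⟨hk', hi'⟩
  · rintro (a | u) (c | v)
    · change (a.val + 1 = c.val ∨ c.val + 1 = a.val) ↔ _ ∧ (adH ((5, a.val), 0) ((5, c.val), 0) =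
        true ∨ adH ((5, c.val), 0) ((5, a.val), 0) = true)
      unfold adH
      simp only [if_true, decide_eq_true_eq]
      constructor
      · intro h
        refine ⟨?_, h⟩
        intro h2
        have h3 := Sum.inl_injective h2
        subst h3
        omega
      · exact fun h => h.2
    · have hv := v.1.1.2.1
      change (v.1.1.1.1 = a.val ∨ v.1.1.1.1 + 1 = a.val) ↔ _ ∧ (adH ((5, a.val), 0)
        (v.1.1.1, v.1.2) = true ∨ adH (v.1.1.1, v.1.2) ((5, a.val), 0) = true)
      unfold adH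
      simp only [if_true]
      rw [if_neg (by omega), if_neg (by omega)]
      simp only [Bool.or_eq_true, Bool.and_eq_true, decide_eq_true_eq]
      constructor
      · intro h
        exact ⟨by simp, Or.inl h⟩
      · rintro ⟨_, h | h⟩
        · exact h
        · exact absurd h.2 (by omega)
    · have hu := u.1.1.2.1
      change (u.1.1.1.1 = c.val ∨ u.1.1.1.1 + 1 = c.val) ↔ _ ∧ (adH (u.1.1.1, u.1.2)
        ((5, c.val), 0) = true ∨ adH ((5, c.val), 0) (u.1.1.1, u.1.2) = true)
      unfold adH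
      simp only [if_true]
      rw [if_neg (by omega), if_neg (by omega)]
      simp only [Bool.or_eq_true, Bool.and_eq_true, decide_eq_true_eq]
      constructor
      · intro h
        exact ⟨by simp, Or.inr h⟩
      · rintro ⟨_, h | h⟩
        · exact absurd h.2 (by omega)
        · exact h
    · have hu := u.1.1.2.1
      have hv := v.1.1.2.1
      change PAdj u v ↔ _ ∧ (adH (u.1.1.1, u.1.2) (v.1.1.1, v.1.2) = true ∨
        adH (v.1.1.1, v.1.2) (u.1.1.1, u.1.2) = true)
      unfold adH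
      simp only
      rw [if_neg (by omega), if_neg (by omega)]
      simp only [Bool.and_eq_true, decide_eq_true_eq]
      constructor
      · rintro ⟨h1, h2⟩
        refine ⟨?_, ?_⟩
        · intro h3
          have h4 := Sum.inr_injective h3
          subst h4
          omega
        · rcases h2 with h2 | h2
          · exact Or.inl ⟨congrArg Subtype.val h1, h2⟩
          · exact Or.inr ⟨(congrArg Subtype.val h1).symm, h2⟩
      · rintro ⟨_, ⟨h1, h2⟩ | ⟨h1, h2⟩⟩
        · exact ⟨Subtype.ext h1, Or.inl h2⟩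
        · exact ⟨(Subtype.ext h1).symm, Or.inr h2⟩

theorem isoR (φ : F3) : Nonempty ((FG.ofList (vR φ) adR).G ≃g TG (TT φ) qT) := by
  refine FG.ofList_iso (vR φ) ?_ (fun x => match x with
    | .inl b => (((1, if b = true then 1 else 0), 0) : Lab)
    | .inr u => (((0, u.1.1.val), u.1.2) : Lab)) ?_ ?_ adR (TG (TT φ) qT) ?_
  · unfold vR
    exact List.Nodup.filter _ (List.Nodup.product (List.Nodup.product List.nodup_range
      List.nodup_range) List.nodup_range)
  · rintro (a | u) (c | v) h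
    · cases a <;> cases c <;> simp at h ⊢
    · simp at h
    · simp at h
    · simp only [Prod.mk.injEq, true_and] at h
      rw [Subtype.ext (Prod.ext (Fin.ext h.1) h.2)]
  · rintro ⟨⟨g, k⟩, i⟩
    unfold vR
    rw [List.mem_filter, List.mem_product, List.mem_product, List.mem_range, List.mem_range,
      List.mem_range]
    constructor
    · rintro ⟨⟨⟨h1, h2⟩, h3⟩, h4⟩
      unfold okR at h4
      simp only at h1 h2 h3 h4
      by_cases h5 : g = 1
      · rw [if_pos h5, Bool.and_eq_true, decide_eq_true_eq, decide_eq_true_eq] at h4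
        subst h5
        obtain ⟨h4, rfl⟩ := h4
        rcases Nat.eq_zero_or_pos k with h6 | h6
        · subst h6
          exact ⟨.inl false, rfl⟩
        · have h7 : k = 1 := by omega
          subst h7
          exact ⟨.inl true, rfl⟩
      · rw [if_neg h5, Bool.and_eq_true, decide_eq_true_eq, decide_eq_true_eq] at h4
        have h6 : g = 0 := by omega
        subst h6
        exact ⟨.inr ⟨(⟨k, h4.1⟩, i), h4.2⟩, rfl⟩
    · rintro ⟨a | u, h⟩
      · simp only [Prod.mk.injEq] at h
        obtain ⟨⟨rfl, rfl⟩, rfl⟩ := h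
        refine ⟨⟨⟨by norm_num, ?_⟩, ?_⟩, ?_⟩
        · split_ifs <;> omega
        · unfold bnd
          omega
        · unfold okR
          cases a <;> simp
      · obtain ⟨⟨k', i'⟩, hi'⟩ := u
        simp only [Prod.mk.injEq] at h hi'
        obtain ⟨⟨rfl, rfl⟩, rfl⟩ := h
        have h1 := k'.isLt
        refine ⟨⟨⟨by norm_num, by omega⟩, ?_⟩, ?_⟩
        · exact lt_of_le_of_lt hi' (qf_lt _ _)
        · unfold okR
          simp only
          rw [if_neg (by norm_num), Bool.and_eq_true, decide_eq_true_eq, decide_eq_true_eq]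
          exact ⟨h1, hi'⟩
  · rintro (a | u) (c | v)
    · change a ≠ c ↔ _ ∧ _
      unfold adR
      simp
    · change True ↔ _ ∧ _
      unfold adR
      simp
    · change True ↔ _ ∧ _
      unfold adR
      simp
    · change PAdj u v ↔ _ ∧ (adR ((0, u.1.1.val), u.1.2) ((0, v.1.1.val), v.1.2) = true ∨
        adR ((0, v.1.1.val), v.1.2) ((0, u.1.1.val), u.1.2) = true)
      unfold adR
      simp only [Bool.or_eq_true, Bool.and_eq_true, decide_eq_true_eq, Prod.mk.injEq, true_and,
        zero_ne_one, false_or]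
      constructor
      · rintro ⟨h1, h2⟩
        refine ⟨?_, ?_⟩
        · intro h3
          have h4 := Sum.inr_injective h3
          subst h4
          omega
        · rcases h2 with h2 | h2
          · exact Or.inl ⟨congrArg Fin.val h1, h2⟩
          · exact Or.inr ⟨(congrArg Fin.val h1).symm, h2⟩
      · rintro ⟨_, ⟨h1, h2⟩ | ⟨h1, h2⟩⟩
        · exact ⟨Fin.ext h1, Or.inl h2⟩
        · exact ⟨(Fin.ext h1).symm, Or.inr h2⟩

theorem red_interval (φ : F3) : IsInterval (red φ).1.G := by
  obtain ⟨e⟩ := isoH φ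
  refine isInterval_iso e (interval_HG (fun κ => κ.1.2) (M := 2 * nO φ + 1) (L := BB φ) ?_ ?_ ?_ ?_)
  · intro κ
    have h1 := κ.2.2
    have h2 := cnt_le φ κ.1.1
    omega
  · omega
  · intro κ κ' h1 h2
    exact Subtype.ext (Prod.ext h1 h2)
  · intro κ
    exact (lenF_lt _ _ _).le

theorem red_iff (φ : F3) :
    SAT3 φ ↔ ∃ r, IsRoleAssignment (red φ).1.G (red φ).2.G r := by
  obtain ⟨e⟩ := isoH φ
  obtain ⟨e'⟩ := isoR φ
  have h1 : (∃ r, IsRoleAssignment (red φ).1.G (red φ).2.G r) ↔
      ∃ r, IsRoleAssignment (HG (KT φ) gK lK) (TG (TT φ) qT) r :=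
    ⟨role_iso e e', role_iso e.symm e'.symm⟩
  rw [h1]
  have hg : ∀ κ : KT φ, gK κ < 5 := fun κ => κ.2.1
  have hlen : ∀ κ : KT φ, 0 < lK κ := fun κ => lenF_pos _ _ _
  have hq : ∀ τ : TT φ, 0 < qT τ := fun τ => (qf_prime _ _).pos
  constructor
  · intro h
    exact role_of_choice hg hlen hq ((choice_iff φ).2 (choice_of_sat h))
  · rintro ⟨r, hr⟩
    rcases Nat.eq_zero_or_pos φ.length with h0 | h0
    · rw [List.length_eq_zero_iff] at h0
      subst h0
      exact ⟨fun _ => true, by simp⟩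
    · have hN : 3 ≤ nO φ := by
        change 3 ≤ φ.length * 3
        omega
      have hne : ∀ a < 5, ∃ κ : KT φ, gK κ = a := by
        intro a ha
        refine ⟨⟨(a, 0), ha, ?_⟩, rfl⟩
        change 0 < cnt φ a
        unfold cnt
        split_ifs <;> omega
      obtain ⟨t, ht, hc⟩ := (choice_iff φ).1 (choice_of_role hg hne hlen hq
        (⟨0, by omega⟩ : TT φ) (⟨1, by omega⟩ : TT φ) (by simp) hr)
      exact sat_of_choice t ht hc

/-- Deciding whether there is a role assignment is `NP`-hard with the promise that the first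
graph is an interval graph. -/
theorem hardPr_role : HardPr (fun I : FG × FG => IsInterval I.1.G)
    (fun I : FG × FG => ∃ r, IsRoleAssignment I.1.G I.2.G r) :=
  hardI_SAT3.toHardPr.trans red_poly (fun φ _ => red_interval φ) (fun φ _ => red_iff φ)

theorem npHard_role : NPHardP RoleInterval := by
  refine (hardPr_role.trans (Pr' := fun _ => True) (f := fun X => X) NPC.Poly.id
    (fun _ _ => trivial) (fun X hX => ?_)).toHardI.toNPHardP
  exact ⟨fun h => ⟨hX, h⟩, fun h => h.2⟩

/-- **Role Assignment on pairs `(G, R)` with an interval graph `G` is `NP`-complete.** Moreover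
every language in `NP` has a polynomial-time reduction all whose images are pairs `(G, R)` with an
interval graph `G`. -/
theorem result : (InNPP RoleInterval ∧ NPHardP RoleInterval) ∧
    ∀ L, InNP L → ∃ f : List Bool → List Bool, PolyTime f ∧ ∀ x, ∃ I : FG × FG, f x = bits I ∧
      IsInterval I.1.G ∧ (x ∈ L ↔ ∃ r, IsRoleAssignment I.1.G I.2.G r) := by
  refine ⟨⟨inNPP_roleInterval, npHard_role⟩, ?_⟩
  intro L hL
  obtain ⟨f, hf, hf1, hf2⟩ := hardPr_role L hL
  exact ⟨fun x => bits (f x), PC.toPolyTime hf, fun x => ⟨f x, rfl, hf1 x, hf2 x⟩⟩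

end Pool.Agent.Results.MP_a950c6_lc.RoleIntervalNPComplete
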